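import Pool.Agent.helper54.UG.Spec

/-! # Row ug:TRV (MP_a2a22c_al) -/

set_option autoImplicit false

namespace Pool.Agent.UG

open Matrix Pool.Agent.H48SL

theorem TRV : TRV_stmt := by
  intro n hn H hD hfi τ hτ hτ0 hz
  have h1 : τ ⬝ᵥ (Pi.single 0 1 : Fin (n + 1) → ℤ) = 0 := by
    rw [dotProduct_single, mul_one]
    exact hτ0
  obtain ⟨i, hi⟩ : ∃ i : Fin n, τ i.succ ≠ 0 := by
    by_contra hcon
    push Not at hcon
    apply hτ
    funext a
    refine Fin.cases hτ0 (fun b => hcon b) a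
  obtain ⟨j, hj⟩ : ∃ j : Fin n, j ≠ i := by
    haveI : Nontrivial (Fin n) := Fin.nontrivial_iff_two_le.mpr hn
    exact exists_ne i
  obtain ⟨k, hk0, _, hk⟩ := Subgroup.exists_pow_mem_of_index_ne_zero hfi.index_ne_zero (xe i j 1)
  obtain ⟨h, hhH, hfx, hdn⟩ := mem_Hb.1 hk
  have hsd : (Pi.single j 1 : Fin n → ℤ) ⬝ᵥ (Pi.single i 1) = 0 := single_dot hj.symm 1
  have hent : ∀ a b : Fin n, (h : Matrix (Fin (n + 1)) (Fin (n + 1)) ℤ) a.succ b.succ =
      (1 : Matrix (Fin n) (Fin n) ℤ) a b +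
        (Pi.single i 1 : Fin n → ℤ) a * ((k : ℤ) * (Pi.single j 1 : Fin n → ℤ) b) := by
    intro a b
    have h2 := congrFun (congrFun hdn a) b
    rw [dn_apply, qg_apply, qg_apply] at h2
    have h3 : (h : Matrix (Fin (n + 1)) (Fin (n + 1)) ℤ) a.succ b.succ =
        ((xe i j 1 ^ k : SLZ n) : Matrix (Fin n) (Fin n) ℤ) a b := by exact_mod_cast h2
    rw [h3]
    have h4 : (xe i j 1 ^ k : SLZ n) = tv (Pi.single i 1) ((k : ℤ) • (Pi.single j 1 : Fin n → ℤ)) := by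
      rw [tv_zsmul_right hsd, zpow_natCast]
      rfl
    rw [h4, tv_coe (by rw [smul_dotProduct, hsd, smul_zero]), Matrix.add_apply, vecMulVec_apply]
    rfl
  have hvec : ∀ b : Fin n, (τ ᵥ* (h : Matrix (Fin (n + 1)) (Fin (n + 1)) ℤ)) b.succ =
      τ b.succ + τ i.succ * ((k : ℤ) * (Pi.single j 1 : Fin n → ℤ) b) := by
    intro b
    rw [vecMul, dotProduct, Fin.sum_univ_succ, hτ0, zero_mul, zero_add]
    have h2 : ∀ a : Fin n, τ a.succ * (h : Matrix (Fin (n + 1)) (Fin (n + 1)) ℤ) a.succ b.succ =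
        τ a.succ * (1 : Matrix (Fin n) (Fin n) ℤ) a b +
          (τ a.succ * (Pi.single i 1 : Fin n → ℤ) a) * ((k : ℤ) * (Pi.single j 1 : Fin n → ℤ) b) := by
      intro a
      rw [hent]
      ring
    rw [Finset.sum_congr rfl fun a _ => h2 a, Finset.sum_add_distrib, ← Finset.sum_mul]
    congr 1
    · simp [Matrix.one_apply]
    · congr 1
      rw [Finset.sum_eq_single i]
      · simp
      · intro a _ ha
        rw [Pi.single_eq_of_ne ha, mul_zero]
      · intro ha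
        exact absurd (Finset.mem_univ i) ha
  have hge : ((h⁻¹ : SLZ (n + 1)) : Matrix (Fin (n + 1)) (Fin (n + 1)) ℤ) *ᵥ
      (Pi.single 0 1 : Fin (n + 1) → ℤ) = Pi.single 0 1 := by
    rw [mulVec_single_one]
    funext a
    have h2 := (fx_iff h⁻¹).1 (fx_inv hfx) a
    rw [Pi.single_apply]
    exact h2
  have hconj : h⁻¹ * tv (Pi.single 0 1) τ * (h⁻¹)⁻¹ =
      tv (Pi.single 0 1) (τ ᵥ* (h : Matrix (Fin (n + 1)) (Fin (n + 1)) ℤ)) := by
    rw [tv_conj h1, hge, inv_inv]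
  have hτ' : (τ ᵥ* (h : Matrix (Fin (n + 1)) (Fin (n + 1)) ℤ)) ⬝ᵥ
      (Pi.single 0 1 : Fin (n + 1) → ℤ) = 0 := by
    have h2 : (h : Matrix (Fin (n + 1)) (Fin (n + 1)) ℤ) *ᵥ (Pi.single 0 1 : Fin (n + 1) → ℤ) =
        Pi.single 0 1 := by
      rw [mulVec_single_one]
      funext a
      have h2 := (fx_iff h).1 hfx a
      rw [Pi.single_apply]
      exact h2
    rw [← dotProduct_mulVec, h2, h1]
  have hinj : ∀ ψ : Fin (n + 1) → ℤ, ψ ⬝ᵥ (Pi.single 0 1 : Fin (n + 1) → ℤ) = 0 →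
      tv (Pi.single 0 1) (τ ᵥ* (h : Matrix (Fin (n + 1)) (Fin (n + 1)) ℤ)) =
        tv (Pi.single 0 1) ψ → ∀ b, (τ ᵥ* (h : Matrix (Fin (n + 1)) (Fin (n + 1)) ℤ)) b = ψ b := by
    intro ψ hψ he b
    have h2 := congrArg (fun g : SLZ (n + 1) => (g : Matrix (Fin (n + 1)) (Fin (n + 1)) ℤ) 0 b) he
    simp only [tv_coe hτ', tv_coe hψ, Matrix.add_apply, vecMulVec_apply, Pi.single_eq_same,
      one_mul] at h2
    exact add_left_cancel h2
  refine (final_coef (by rw [Fintype.card_fin]; omega) H (Pi.single 0 1) τ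
    (tv (Pi.single 0 1) τ) h⁻¹ hz (H.inv_mem hhH) ?_ (tv_coe h1) ?_ (Or.inl ⟨?_, ?_⟩)).1 hD
  · intro he
    apply hi
    have h2 := congrArg (fun g : SLZ (n + 1) =>
      (g : Matrix (Fin (n + 1)) (Fin (n + 1)) ℤ) 0 i.succ) he
    simp only [tv_coe h1, Matrix.add_apply, vecMulVec_apply, Pi.single_eq_same,
      one_mul, Matrix.SpecialLinearGroup.coe_one] at h2
    exact add_eq_left.mp h2
  · rw [hge, h1]
    norm_num
  · rw [hconj]
    intro he
    have h2 := hinj τ h1 he j.succ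
    rw [hvec, Pi.single_eq_same, mul_one] at h2
    have h3 : τ i.succ * (k : ℤ) = 0 := add_eq_left.mp h2
    rcases mul_eq_zero.mp h3 with h4 | h4
    · exact hi h4
    · omega
  · rw [hconj, ← tv_neg_right h1]
    intro he
    have h2 := hinj (-τ) (by rw [neg_dotProduct, h1, neg_zero]) he i.succ
    rw [hvec, Pi.single_eq_of_ne hj.symm, mul_zero, mul_zero, add_zero, Pi.neg_apply] at h2
    omega

end Pool.Agent.UG
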